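import Pool.Agent.Y712.AJ.Reg

/-!
# `ℓ`-adic regulators onto semistable Galois cohomology: rational varieties in the middle degree

Let `𝒱` be the class of the smooth projective varieties over a number field (for example over `ℚ`: a
variety over a number field is a variety over `ℚ`, with the same regulators by Shapiro's lemma) and
`K = ℚ_ℓ`. Let `M.gr X i j` be `H^i_M(X, ℚ(j))_hom`, `J.gr X i j = H¹(G, H^{i-1}(X, ℚ_ℓ(j)))`,
`F X i j = H¹_st` and `r` the regulator. We prove, for each `n` (`n = 2 j - i`, the part of `K_n`):

the regulators are injective on `H^i_M(X, ℚ(j))_hom ⊗ ℚ_ℓ` with image exactly `H¹_st`, for **all** `X` and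
all `i`, `j` with `2 j - i = n`, if and only if this is true for the **rational** varieties `B`, and even
only for the blow-ups `B` of projective spaces with one smooth centre, and for the **middle degree**
`i - 1 = dim B`, where `H^{i-1}(B, ℚ_ℓ(j))` is polarized of weight `-1-n`.

The same is true for each of the parts: injectivity; the image contains `H¹_st`; the image is contained
in `H¹_st`.

Proof: if `X` is the centre, of codimension `c`, of the blow-up `B`, with the exceptional divisor
`ι : E ⟶ B` and `g : E ⟶ X`, then `x ↦ ι_* (h^s g^* x)` and `y ↦ g_* (h^(c-2-s) ι^* y)` make the groups of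
`X` in degree `i` and twist `j` direct factors of those of `B` in degree `i + 2 s + 2` and twist
`j + s + 1`, `0 ≤ s ≤ c - 2`, and `i - 1 + 2 s + 2 = dim B` for a suitable `s` if `dim B` is large and has
the right parity.
-/

set_option autoImplicit false

open CategoryTheory AlgebraicGeometry

universe u v w w' x

namespace Pool.Agent.Results.MP_76188c_nt.MiddleDegree

open Pool.Agent.H914 VarClass Obj Pool.Agent.Y712.Reg

/-- **The conjecture on the regulators onto `H¹_st` is equivalent to its case of the rational varieties in
the middle degree, for each of the groups `K_n`.** -/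
theorem result {k : Type u} [Field k] {𝒱 : VarClass k} {L : 𝒱.Obj → Type x} {K : Type w} [Field K]
    {T : RegData.{u, v, w, w', x} 𝒱 L K} (hT : IsReg T) {R : 𝒱.Obj → Prop}
    (hR : HasBlowUps T R) (n : ℤ) :
    DecidedInMiddle R n (RIso T) ∧ DecidedInMiddle R n (RInjective T) ∧
      DecidedInMiddle R n (ROnto T) ∧ DecidedInMiddle R n (RInto T) :=
  ⟨decided hT hR n fun _ _ _ _ _ _ _ _ _ _ h => h.iso,
    decided hT hR n fun _ _ _ _ _ _ _ _ _ _ h => h.injective,
    decided hT hR n fun _ _ _ _ _ _ _ _ _ _ h => h.onto,
    decided hT hR n fun _ _ _ _ _ _ _ _ _ _ h => h.into⟩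

end Pool.Agent.Results.MP_76188c_nt.MiddleDegree
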